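import Mathlib
import Pool.Agent.Results.MP_19f0f5_gt.NonUniqueness

/-!
Point-source x-rays of planar convex bodies: no two points determine convex bodies, so the least
number `N` of sources that always suffices is at least three.
-/

set_option autoImplicit false

open Set

namespace Pool.Agent.Results.MP_e55421_gt.NoTwoPointsDetermine

/-- The Euclidean plane. -/
abbrev E2 : Type := EuclideanSpace ℝ (Fin 2)

/-- The unit vector that makes angle `θ` with the first coordinate axis. -/
noncomputable def dir (θ : ℝ) : E2 := !₂[Real.cos θ, Real.sin θ]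

/-- The chord function of `K` at `x`: the length (diameter) of the intersection of `K` with the line
through `x` at angle `θ` to the first axis; it is `0` if the intersection is empty. -/
noncomputable def chord (K : Set E2) (x : E2) (θ : ℝ) : ℝ :=
  Metric.diam (K ∩ {p | ∃ t : ℝ, p = x + t • dir θ})

/-- A convex body: compact and convex with nonempty interior. -/
def IsBody (K : Set E2) : Prop := Convex ℝ K ∧ IsCompact K ∧ (interior K).Nonempty

/-- The set `P` of point sources determines convex bodies. -/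
def Determines (P : Set E2) : Prop :=
  ∀ K L : Set E2, IsBody K → IsBody L →
    (∀ x ∈ P, ∀ θ ∈ Ico (0 : ℝ) Real.pi, chord K x θ = chord L x θ) → K = L

/-- `k ≥ 1` and every set of `k` points, no three of them collinear, determines convex bodies. -/
def Works (k : ℕ) : Prop :=
  1 ≤ k ∧ ∀ P : Finset E2, P.card = k →
    (∀ a ∈ P, ∀ b ∈ P, ∀ c ∈ P, a ≠ b → a ≠ c → b ≠ c → ¬ Collinear ℝ {a, b, c}) →
      Determines (P : Set E2)

lemma dir_add_pi (θ : ℝ) : dir (θ + Real.pi) = - dir θ := by
  unfold dir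
  ext i
  fin_cases i <;> simp

lemma chord_add_pi (K : Set E2) (x : E2) (θ : ℝ) : chord K x (θ + Real.pi) = chord K x θ := by
  unfold chord
  congr 2
  ext p
  constructor
  · rintro ⟨t, ht⟩
    refine ⟨-t, ?_⟩
    rw [ht, dir_add_pi]; simp
  · rintro ⟨t, ht⟩
    refine ⟨-t, ?_⟩
    rw [ht, dir_add_pi]; simp

lemma chord_all {K L : Set E2} {x : E2}
    (h : ∀ θ ∈ Ico (0 : ℝ) Real.pi, chord K x θ = chord L x θ) (θ : ℝ) :
    chord K x θ = chord L x θ := by
  have hper : Function.Periodic (fun θ => chord K x θ - chord L x θ) Real.pi := by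
    intro θ
    simp only [chord_add_pi]
  obtain ⟨y, hy, hyK⟩ := hper.exists_mem_Ico₀ Real.pi_pos θ
  have h1 := h y hy
  linarith

/-- Multiplication by the complex number `a + i b`. -/
noncomputable def T (a b : ℝ) (v : E2) : E2 := !₂[a * v 0 - b * v 1, b * v 0 + a * v 1]

lemma T_apply0 (a b : ℝ) (v : E2) : T a b v 0 = a * v 0 - b * v 1 := by simp [T]
lemma T_apply1 (a b : ℝ) (v : E2) : T a b v 1 = b * v 0 + a * v 1 := by simp [T]

lemma norm_T (a b : ℝ) (v : E2) : ‖T a b v‖ = Real.sqrt (a ^ 2 + b ^ 2) * ‖v‖ := by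
  rw [EuclideanSpace.norm_eq, EuclideanSpace.norm_eq, ← Real.sqrt_mul (by positivity)]
  congr 1
  simp only [Fin.sum_univ_two, T_apply0, T_apply1, Real.norm_eq_abs, sq_abs]
  ring

lemma T_add (a b : ℝ) (v w : E2) : T a b (v + w) = T a b v + T a b w := by
  ext i
  fin_cases i
  · simp only [Fin.zero_eta, PiLp.add_apply, T_apply0]; ring
  · simp only [Fin.mk_one, PiLp.add_apply, T_apply1]; ring

lemma T_smul (a b t : ℝ) (v : E2) : T a b (t • v) = t • T a b v := by
  ext i
  fin_cases i
  · simp only [Fin.zero_eta, PiLp.smul_apply, T_apply0, smul_eq_mul]; ring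
  · simp only [Fin.mk_one, PiLp.smul_apply, T_apply1, smul_eq_mul]; ring

lemma T_sub (a b : ℝ) (v w : E2) : T a b (v - w) = T a b v - T a b w := by
  ext i
  fin_cases i
  · simp only [Fin.zero_eta, PiLp.sub_apply, T_apply0]; ring
  · simp only [Fin.mk_one, PiLp.sub_apply, T_apply1]; ring

/-- The similarity `z ↦ p + (a + i b) (z - x)`. -/
noncomputable def S (a b : ℝ) (p x z : E2) : E2 := p + T a b (z - x)

lemma dist_S (a b : ℝ) (p x z w : E2) :
    dist (S a b p x z) (S a b p x w) = Real.sqrt (a ^ 2 + b ^ 2) * dist z w := by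
  rw [dist_eq_norm, dist_eq_norm, ← norm_T]
  congr 1
  unfold S
  rw [add_sub_add_left_eq_sub, ← T_sub]
  congr 1
  abel

lemma S_inj {a b : ℝ} (hab : 0 < a ^ 2 + b ^ 2) (p x : E2) : Function.Injective (S a b p x) := by
  intro z w h
  have h1 := dist_S a b p x z w
  rw [h, dist_self] at h1
  have h2 : 0 < Real.sqrt (a ^ 2 + b ^ 2) := Real.sqrt_pos.2 hab
  have h3 : dist z w = 0 := by
    rcases mul_eq_zero.1 h1.symm with h | h
    · exact absurd h h2.ne'
    · exact h
  exact dist_eq_zero.1 h3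

lemma T_inv {a b : ℝ} (hab : 0 < a ^ 2 + b ^ 2) (v : E2) :
    T a b (T (a / (a ^ 2 + b ^ 2)) (-b / (a ^ 2 + b ^ 2)) v) = v := by
  have h := hab.ne'
  ext i
  fin_cases i
  · simp only [Fin.zero_eta, T_apply0, T_apply1]; field_simp; ring
  · simp only [Fin.mk_one, T_apply0, T_apply1]; field_simp; ring

lemma S_surj {a b : ℝ} (hab : 0 < a ^ 2 + b ^ 2) (p x : E2) : Function.Surjective (S a b p x) := by
  intro w
  refine ⟨x + T (a / (a ^ 2 + b ^ 2)) (-b / (a ^ 2 + b ^ 2)) (w - p), ?_⟩
  unfold S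
  rw [add_sub_cancel_left, T_inv hab]
  abel

lemma S_cont (a b : ℝ) (p x : E2) : Continuous (S a b p x) := by
  have : LipschitzWith (Real.toNNReal (Real.sqrt (a ^ 2 + b ^ 2))) (S a b p x) := by
    apply LipschitzWith.of_dist_le_mul
    intro z w
    rw [dist_S, Real.coe_toNNReal _ (Real.sqrt_nonneg _)]
  exact this.continuous

lemma T_dir (r φ θ : ℝ) : T (r * Real.cos φ) (r * Real.sin φ) (dir θ) = r • dir (θ + φ) := by
  ext i
  fin_cases i
  · simp only [Fin.zero_eta, T_apply0, dir, PiLp.smul_apply, smul_eq_mul]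
    simp [Real.cos_add]; ring
  · simp only [Fin.mk_one, T_apply1, dir, PiLp.smul_apply, smul_eq_mul]
    simp [Real.sin_add]; ring

lemma S_convex {a b : ℝ} (p x : E2) {K : Set E2} (hK : Convex ℝ K) : Convex ℝ (S a b p x '' K) := by
  rintro _ ⟨z, hz, rfl⟩ _ ⟨w, hw, rfl⟩ s t hs ht hst
  refine ⟨s • z + t • w, hK hz hw hs ht hst, ?_⟩
  unfold S
  have h1 : s • z + t • w - x = s • (z - x) + t • (w - x) := by
    have : x = (s + t) • x := by rw [hst, one_smul]
    nth_rewrite 1 [this]
    rw [add_smul]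
    module
  rw [h1, T_add, T_smul, T_smul]
  have : p = (s + t) • p := by rw [hst, one_smul]
  nth_rewrite 1 [this]
  rw [add_smul]
  module

lemma S_body {a b : ℝ} (hab : 0 < a ^ 2 + b ^ 2) (p x : E2) {K : Set E2} (hK : IsBody K) :
    IsBody (S a b p x '' K) := by
  refine ⟨S_convex p x hK.1, hK.2.1.image (S_cont a b p x), ?_⟩
  obtain ⟨z, hz⟩ := hK.2.2
  rw [mem_interior_iff_mem_nhds, Metric.mem_nhds_iff] at hz
  obtain ⟨ε, hε, hb⟩ := hz
  have hs : 0 < Real.sqrt (a ^ 2 + b ^ 2) := Real.sqrt_pos.2 hab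
  refine ⟨S a b p x z, ?_⟩
  rw [mem_interior_iff_mem_nhds, Metric.mem_nhds_iff]
  refine ⟨Real.sqrt (a ^ 2 + b ^ 2) * ε, by positivity, ?_⟩
  intro w hw
  obtain ⟨w', rfl⟩ := S_surj hab p x w
  refine ⟨w', hb ?_, rfl⟩
  rw [Metric.mem_ball, dist_S] at hw
  rw [Metric.mem_ball]
  exact lt_of_mul_lt_mul_left hw hs.le

lemma diam_S {a b : ℝ} (p x : E2) (A : Set E2) :
    Metric.diam (S a b p x '' A) = Real.sqrt (a ^ 2 + b ^ 2) * Metric.diam A := by
  have h0 : 0 ≤ Real.sqrt (a ^ 2 + b ^ 2) := Real.sqrt_nonneg _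
  by_cases hab : Real.sqrt (a ^ 2 + b ^ 2) = 0
  · rw [hab, zero_mul]
    apply Metric.diam_subsingleton
    rintro _ ⟨z, -, rfl⟩ _ ⟨w, -, rfl⟩
    rw [← dist_eq_zero, dist_S, hab, zero_mul]
  have hpos : 0 < Real.sqrt (a ^ 2 + b ^ 2) := lt_of_le_of_ne h0 (Ne.symm hab)
  by_cases hA : Bornology.IsBounded A
  · apply le_antisymm
    · apply Metric.diam_le_of_forall_dist_le (by positivity)
      rintro _ ⟨z, hz, rfl⟩ _ ⟨w, hw, rfl⟩
      rw [dist_S]
      exact mul_le_mul_of_nonneg_left (Metric.dist_le_diam_of_mem hA hz hw) h0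
    · have hSA : Bornology.IsBounded (S a b p x '' A) := by
        rw [Metric.isBounded_iff] at hA ⊢
        obtain ⟨C, hC⟩ := hA
        refine ⟨Real.sqrt (a ^ 2 + b ^ 2) * C, ?_⟩
        rintro _ ⟨z, hz, rfl⟩ _ ⟨w, hw, rfl⟩
        rw [dist_S]
        exact mul_le_mul_of_nonneg_left (hC hz hw) h0
      rw [mul_comm, ← le_div_iff₀ hpos]
      apply Metric.diam_le_of_forall_dist_le (by positivity)
      intro z hz w hw
      rw [le_div_iff₀ hpos, mul_comm, ← dist_S a b p x]
      exact Metric.dist_le_diam_of_mem hSA ⟨z, hz, rfl⟩ ⟨w, hw, rfl⟩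
  · rw [Metric.diam_eq_zero_of_unbounded hA, mul_zero]
    apply Metric.diam_eq_zero_of_unbounded
    intro hSA
    apply hA
    rw [Metric.isBounded_iff] at hSA ⊢
    obtain ⟨C, hC⟩ := hSA
    refine ⟨C / Real.sqrt (a ^ 2 + b ^ 2), ?_⟩
    intro z hz w hw
    rw [le_div_iff₀ hpos, mul_comm, ← dist_S a b p x]
    exact hC ⟨z, hz, rfl⟩ ⟨w, hw, rfl⟩

lemma chord_S {r φ : ℝ} (hr : 0 < r) (p x₀ : E2) (K : Set E2) (x : E2) (θ : ℝ) :
    chord (S (r * Real.cos φ) (r * Real.sin φ) p x₀ '' K)
        (S (r * Real.cos φ) (r * Real.sin φ) p x₀ x) (θ + φ) = r * chord K x θ := by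
  set a := r * Real.cos φ with ha
  set b := r * Real.sin φ with hb
  have hab : a ^ 2 + b ^ 2 = r ^ 2 := by
    rw [ha, hb]
    have := Real.sin_sq_add_cos_sq φ
    nlinarith [this]
  have hab0 : 0 < a ^ 2 + b ^ 2 := by rw [hab]; positivity
  have hs : Real.sqrt (a ^ 2 + b ^ 2) = r := by rw [hab, Real.sqrt_sq hr.le]
  have h1 : {q | ∃ t : ℝ, q = S a b p x₀ x + t • dir (θ + φ)} =
      S a b p x₀ '' {q | ∃ t : ℝ, q = x + t • dir θ} := by
    have hT : T a b (dir θ) = r • dir (θ + φ) := T_dir r φ θ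
    ext q
    constructor
    · rintro ⟨t, rfl⟩
      refine ⟨x + (t / r) • dir θ, ⟨t / r, rfl⟩, ?_⟩
      unfold S
      have : x + (t / r) • dir θ - x₀ = (x - x₀) + (t / r) • dir θ := by abel
      rw [this, T_add, T_smul, hT, smul_smul, div_mul_cancel₀ _ hr.ne']
      abel
    · rintro ⟨_, ⟨t, rfl⟩, rfl⟩
      refine ⟨t * r, ?_⟩
      unfold S
      have : x + t • dir θ - x₀ = (x - x₀) + t • dir θ := by abel
      rw [this, T_add, T_smul, hT, smul_smul]
      abel
  unfold chord
  rw [h1, ← image_inter (S_inj hab0 p x₀), diam_S, hs]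

/-- No two points determine convex bodies. -/
theorem not_determines (p q : E2) (hpq : p ≠ q) : ¬ Determines {p, q} := by
  obtain ⟨x₁, x₂, hx, K, L, hKL, hK, hL, h1, h2⟩ :=
    Pool.Agent.Results.MP_19f0f5_gt.NonUniqueness.result
  have h1' : ∀ θ, chord K x₁ θ = chord L x₁ θ := chord_all h1
  have h2' : ∀ θ, chord K x₂ θ = chord L x₂ θ := chord_all h2
  have hbK : IsBody K := ⟨hK.1, hK.2.1, hK.2.2.2.2.mono inter_subset_right⟩
  have hbL : IsBody L := ⟨hL.1, hL.2.1, hL.2.2.2.2.mono inter_subset_right⟩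
  -- the complex ratio
  set d : E2 := x₂ - x₁ with hd
  set e : E2 := q - p with he
  have hd0 : 0 < d 0 ^ 2 + d 1 ^ 2 := by
    by_contra hcon
    have h0 : d 0 = 0 := by nlinarith [sq_nonneg (d 0), sq_nonneg (d 1)]
    have h1 : d 1 = 0 := by nlinarith [sq_nonneg (d 0), sq_nonneg (d 1)]
    apply hx
    have : d = 0 := by
      ext i
      fin_cases i
      · simpa using h0
      · simpa using h1
    rw [hd, sub_eq_zero] at this
    exact this.symm
  have he0 : 0 < e 0 ^ 2 + e 1 ^ 2 := by
    by_contra hcon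
    have h0 : e 0 = 0 := by nlinarith [sq_nonneg (e 0), sq_nonneg (e 1)]
    have h1 : e 1 = 0 := by nlinarith [sq_nonneg (e 0), sq_nonneg (e 1)]
    apply hpq
    have : e = 0 := by
      ext i
      fin_cases i
      · simpa using h0
      · simpa using h1
    rw [he, sub_eq_zero] at this
    exact this.symm
  set D := d 0 ^ 2 + d 1 ^ 2 with hD
  set a := (e 0 * d 0 + e 1 * d 1) / D with ha
  set b := (e 1 * d 0 - e 0 * d 1) / D with hb
  have hTd : T a b d = e := by
    have hDne := hd0.ne'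
    ext i
    fin_cases i
    · simp only [Fin.zero_eta, T_apply0, ha, hb]
      field_simp
      rw [hD]; ring
    · simp only [Fin.mk_one, T_apply1, ha, hb]
      field_simp
      rw [hD]; ring
  have hab : 0 < a ^ 2 + b ^ 2 := by
    by_contra hcon
    have h0 : a = 0 := by nlinarith [sq_nonneg a, sq_nonneg b]
    have h1 : b = 0 := by nlinarith [sq_nonneg a, sq_nonneg b]
    have hz : e = 0 := by
      rw [← hTd, h0, h1]
      ext i
      fin_cases i
      · simp [T]
      · simp [T]
    rw [hz] at he0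
    simp at he0
  -- polar form
  set r := Real.sqrt (a ^ 2 + b ^ 2) with hr
  have hr0 : 0 < r := Real.sqrt_pos.2 hab
  obtain ⟨φ, hφ1, hφ2⟩ : ∃ φ : ℝ, a = r * Real.cos φ ∧ b = r * Real.sin φ := by
    refine ⟨Complex.arg ⟨a, b⟩, ?_, ?_⟩
    · have hn : ‖(⟨a, b⟩ : ℂ)‖ = r := by
        rw [Complex.norm_def, Complex.normSq_mk, hr]
        congr 1; ring
      have h := Complex.norm_mul_cos_arg (⟨a, b⟩ : ℂ)
      rw [hn] at h
      exact h.symm
    · have hn : ‖(⟨a, b⟩ : ℂ)‖ = r := by
        rw [Complex.norm_def, Complex.normSq_mk, hr]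
        congr 1; ring
      have h := Complex.norm_mul_sin_arg (⟨a, b⟩ : ℂ)
      rw [hn] at h
      exact h.symm
  have hSp : S a b p x₁ x₁ = p := by
    unfold S
    have : T a b (x₁ - x₁) = 0 := by
      rw [sub_self]
      ext i
      fin_cases i
      · simp [T]
      · simp [T]
    rw [this, add_zero]
  have hSq : S a b p x₁ x₂ = q := by
    unfold S
    rw [← hd, hTd, he]
    abel
  intro hdet
  have key : S a b p x₁ '' K = S a b p x₁ '' L := by
    apply hdet _ _ (S_body hab p x₁ hbK) (S_body hab p x₁ hbL)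
    have hgen : ∀ x : E2, (∀ θ, chord K x θ = chord L x θ) → ∀ θ,
        chord (S a b p x₁ '' K) (S a b p x₁ x) θ = chord (S a b p x₁ '' L) (S a b p x₁ x) θ := by
      intro x hxx θ
      have e1 := chord_S (φ := φ) hr0 p x₁ K x (θ - φ)
      have e2 := chord_S (φ := φ) hr0 p x₁ L x (θ - φ)
      rw [← hφ1, ← hφ2, sub_add_cancel] at e1 e2
      rw [e1, e2, hxx]
    intro x hxP θ _
    rcases hxP with rfl | hxP
    · have := hgen x₁ h1' θ
      rwa [hSp] at this
    · rw [mem_singleton_iff] at hxP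
      subst hxP
      have := hgen x₂ h2' θ
      rwa [hSq] at this
  exact hKL ((S_inj hab p x₁).image_injective key)

/-- No set of at most two points determines convex bodies; hence, if every set of `k ≥ 1` points in
general position determines convex bodies, then `k ≥ 3`. In particular two sources do not
suffice. -/
theorem result :
    (∀ p q : E2, ¬ Determines {p, q}) ∧ ∀ k : ℕ, Works k → 3 ≤ k := by
  have hmain : ∀ p q : E2, ¬ Determines {p, q} := by
    intro p q hdet
    by_cases hpq : p = q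
    · -- add a second source
      subst hpq
      have hne : p ≠ p + !₂[1, 0] := by
        intro h
        have := congrArg (fun v : E2 => v 0) h
        simp at this
      apply not_determines p (p + !₂[1, 0]) hne
      intro K L hK hL h
      exact hdet K L hK hL (fun x hx θ hθ => h x (by
        rcases hx with rfl | hx
        · exact mem_insert _ _
        · rw [mem_singleton_iff] at hx; subst hx; exact mem_insert _ _) θ hθ)
    · exact not_determines p q hpq hdet
  refine ⟨hmain, ?_⟩
  rintro k ⟨hk1, hk⟩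
  by_contra hcon
  have hk2 : k = 1 ∨ k = 2 := by omega
  rcases hk2 with rfl | rfl
  · have h := hk {(0 : E2)} (by simp) (by
      intro a ha b hb c hc hab
      simp only [Finset.mem_singleton] at ha hb
      exact absurd (ha.trans hb.symm) hab)
    apply hmain 0 0
    intro K L hK hL hh
    refine h K L hK hL (fun x hx θ hθ => hh x ?_ θ hθ)
    simp only [Finset.coe_singleton, mem_singleton_iff] at hx
    subst hx
    simp
  · have hne : (0 : E2) ≠ !₂[1, 0] := by
      intro h
      have := congrArg (fun v : E2 => v 0) h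
      simp at this
    have h := hk {(0 : E2), !₂[1, 0]} (Finset.card_pair hne) (by
      intro a ha b hb c hc hab hac hbc
      simp only [Finset.mem_insert, Finset.mem_singleton] at ha hb hc
      rcases ha with rfl | rfl <;> rcases hb with rfl | rfl <;> rcases hc with rfl | rfl <;>
        first
        | exact absurd rfl hab
        | exact absurd rfl hac
        | exact absurd rfl hbc)
    apply hmain 0 !₂[1, 0]
    intro K L hK hL hh
    refine h K L hK hL (fun x hx θ hθ => hh x ?_ θ hθ)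
    simpa using hx

end Pool.Agent.Results.MP_e55421_gt.NoTwoPointsDetermine
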